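import Pool.Agent.helper11.RPQ.SpecG

set_option autoImplicit false

open scoped MatrixGroups ContDiff Topology UpperHalfPlane ComplexConjugate
open UpperHalfPlane MeasureTheory Filter Set

namespace Pool.Agent.RPQ

open Pool.Agent.RS
open Pool.Agent.MS (BA BB st pf gk Dk amk)

theorem CNA_cosh (g : SL(2, ℝ)) : Real.cosh (dist (g • I : ℍ) I) = (g.1 0 0 ^ 2 + g.1 0 1 ^ 2 + g.1 1 0 ^ 2 + g.1 1 1 ^ 2) / 2 := by
  have hdet : g.1 0 0 * g.1 1 1 - g.1 0 1 * g.1 1 0 = 1 := by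
    have := g.2
    rwa [Matrix.det_fin_two] at this
  have h := coe_specialLinearGroup_apply g I
  have hne : ((g.1 1 0 : ℝ) : ℂ) * ((I : ℍ) : ℂ) + ((g.1 1 1 : ℝ) : ℂ) ≠ 0 := by
    intro h0
    have h1 := congrArg Complex.re h0
    have h2 := congrArg Complex.im h0
    simp at h1 h2
    rw [h1, h2] at hdet
    norm_num at hdet
  have h3 : ((g • I : ℍ) : ℂ) * (((g.1 1 0 : ℝ) : ℂ) * ((I : ℍ) : ℂ) + ((g.1 1 1 : ℝ) : ℂ)) =
      ((g.1 0 0 : ℝ) : ℂ) * ((I : ℍ) : ℂ) + ((g.1 0 1 : ℝ) : ℂ) := by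
    rw [h]
    exact div_mul_cancel₀ _ hne
  have h4 := congrArg Complex.re h3
  have h5 := congrArg Complex.im h3
  simp only [Complex.mul_re, Complex.mul_im, Complex.add_re, Complex.add_im, Complex.ofReal_re, Complex.ofReal_im, UpperHalfPlane.coe_re,
    UpperHalfPlane.coe_im, UpperHalfPlane.I_re, UpperHalfPlane.I_im] at h4 h5
  rw [UpperHalfPlane.cosh_dist']
  simp only [UpperHalfPlane.I_re, UpperHalfPlane.I_im]
  have hy := (g • I : ℍ).im_pos
  generalize (g • I : ℍ).im = y at h4 h5 hy ⊢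
  generalize (g • I : ℍ).re = x at h4 h5 ⊢
  generalize g.1 0 0 = a at h4 h5 hdet ⊢
  generalize g.1 0 1 = b at h4 h5 hdet ⊢
  generalize g.1 1 0 = c at h4 h5 hdet ⊢
  generalize g.1 1 1 = d at h4 h5 hdet ⊢
  have ha : a = x * c + y * d := by linarith
  have hb : b = x * d - y * c := by linarith
  have h6 : y * (c ^ 2 + d ^ 2) = 1 := by
    rw [ha, hb] at hdet
    linarith
  rw [div_eq_div_iff (by positivity) (by norm_num)]
  have h7 : a ^ 2 + b ^ 2 = (x ^ 2 + y ^ 2) * (c ^ 2 + d ^ 2) := by rw [ha, hb]; ring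
  have h8 : y * (a ^ 2 + b ^ 2) = x ^ 2 + y ^ 2 := by
    rw [h7]
    calc y * ((x ^ 2 + y ^ 2) * (c ^ 2 + d ^ 2)) = (x ^ 2 + y ^ 2) * (y * (c ^ 2 + d ^ 2)) := by ring
      _ = x ^ 2 + y ^ 2 := by rw [h6, mul_one]
  linarith

theorem CNA_dist (g : SL(2, ℝ)) (s : ℝ) (hs : s ^ 2 = 1) (h0 : |g.1 0 0 - s| ≤ 1 / 10) (h1 : |g.1 0 1| ≤ 1 / 10) (h2 : |g.1 1 0| ≤ 1 / 10)
    (h3 : |g.1 1 1 - s| ≤ 1 / 10) : dist (g • I : ℍ) I ≤ 1 := by
  have h4 : Real.cosh (dist (g • I : ℍ) I) ≤ Real.cosh 1 := by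
    rw [CNA_cosh]
    have h2' : (3 / 2 : ℝ) ≤ Real.cosh 1 := by
      rw [Real.cosh_eq]
      have h3 := Real.exp_one_gt_d9
      have h4 := Real.exp_pos (-1)
      have h5 : Real.exp 1 * Real.exp (-1) = 1 := by
        rw [← Real.exp_add]; simp
      have h6 := Real.exp_one_lt_d9
      nlinarith
    refine le_trans ?_ h2'
    have a1 : g.1 0 1 ^ 2 ≤ 1 / 100 := by
      have := abs_le.1 h1
      nlinarith
    have a2 : g.1 1 0 ^ 2 ≤ 1 / 100 := by
      have := abs_le.1 h2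
      nlinarith
    have hs' : s = 1 ∨ s = -1 := by
      have h5 : (s - 1) * (s + 1) = 0 := by linear_combination hs
      rcases mul_eq_zero.1 h5 with h6 | h6
      · left; linarith
      · right; linarith
    have a3 : g.1 0 0 ^ 2 ≤ 121 / 100 := by
      have := abs_le.1 h0
      rcases hs' with h | h <;> rw [h] at this <;> nlinarith
    have a4 : g.1 1 1 ^ 2 ≤ 121 / 100 := by
      have := abs_le.1 h3
      rcases hs' with h | h <;> rw [h] at this <;> nlinarith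
    linarith
  rw [Real.cosh_le_cosh, abs_one] at h4
  exact (le_abs_self _).trans h4

theorem CNA_t (M e x y z : ℝ) (hx : |x| ≤ M) (hy : |y| ≤ e) (hz : |z| ≤ M) : |x * (y * z)| ≤ M * M * e := by
  have hM : 0 ≤ M := (abs_nonneg _).trans hx
  have he : 0 ≤ e := (abs_nonneg _).trans hy
  rw [abs_mul, abs_mul]
  calc |x| * (|y| * |z|) ≤ M * (e * M) := mul_le_mul hx (mul_le_mul hy hz (abs_nonneg _) he) (by positivity) hM
    _ = M * M * e := by ring

theorem CNA_four (M e u e0 p e1 t r e2 e3 : ℝ) (hu : |u| ≤ M) (hp : |p| ≤ M) (ht : |t| ≤ M) (hr : |r| ≤ M) (h0 : |e0| ≤ e) (h1 : |e1| ≤ e)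
    (h2 : |e2| ≤ e) (h3 : |e3| ≤ e) : |u * (e0 * p + e1 * t) - r * (e2 * p + e3 * t)| ≤ 4 * (M * M * e) := by
  have a1 := abs_le.1 (CNA_t M e u e0 p hu h0 hp)
  have a2 := abs_le.1 (CNA_t M e u e1 t hu h1 ht)
  have a3 := abs_le.1 (CNA_t M e r e2 p hr h2 hp)
  have a4 := abs_le.1 (CNA_t M e r e3 t hr h3 ht)
  rw [abs_le]
  constructor <;> nlinarith [a1.1, a1.2, a2.1, a2.2, a3.1, a3.2, a4.1, a4.2]

theorem CNA_conj (b q : SL(2, ℝ)) (e M s : ℝ) (hq : ∀ i j, |q.1 i j| ≤ M) (h0 : |b.1 0 0 - s| ≤ e) (h1 : |b.1 0 1| ≤ e) (h2 : |b.1 1 0| ≤ e)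
    (h3 : |b.1 1 1 - s| ≤ e) :
    |(q⁻¹ * b * q).1 0 0 - s| ≤ 4 * (M * M * e) ∧ |(q⁻¹ * b * q).1 0 1| ≤ 4 * (M * M * e) ∧ |(q⁻¹ * b * q).1 1 0| ≤ 4 * (M * M * e) ∧
      |(q⁻¹ * b * q).1 1 1 - s| ≤ 4 * (M * M * e) := by
  have hdet : q.1 0 0 * q.1 1 1 - q.1 0 1 * q.1 1 0 = 1 := by
    have := q.2
    rwa [Matrix.det_fin_two] at this
  have e00 : (q⁻¹ * b * q).1 0 0 - s = q.1 1 1 * ((b.1 0 0 - s) * q.1 0 0 + b.1 0 1 * q.1 1 0) - q.1 0 1 * (b.1 1 0 * q.1 0 0 + (b.1 1 1 - s) * q.1 1 0) := by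
    have : (q⁻¹ * b * q).1 0 0 = (q.1 1 1 * b.1 0 0 + -q.1 0 1 * b.1 1 0) * q.1 0 0 + (q.1 1 1 * b.1 0 1 + -q.1 0 1 * b.1 1 1) * q.1 1 0 := by
      simp [Matrix.mul_apply, Fin.sum_univ_two, Matrix.adjugate_fin_two, Matrix.vecMul, dotProduct]
    rw [this]
    linear_combination s * hdet
  have e01 : (q⁻¹ * b * q).1 0 1 = q.1 1 1 * ((b.1 0 0 - s) * q.1 0 1 + b.1 0 1 * q.1 1 1) - q.1 0 1 * (b.1 1 0 * q.1 0 1 + (b.1 1 1 - s) * q.1 1 1) := by
    have : (q⁻¹ * b * q).1 0 1 = (q.1 1 1 * b.1 0 0 + -q.1 0 1 * b.1 1 0) * q.1 0 1 + (q.1 1 1 * b.1 0 1 + -q.1 0 1 * b.1 1 1) * q.1 1 1 := by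
      simp [Matrix.mul_apply, Fin.sum_univ_two, Matrix.adjugate_fin_two, Matrix.vecMul, dotProduct]
    rw [this]
    ring
  have e10 : (q⁻¹ * b * q).1 1 0 = -q.1 1 0 * ((b.1 0 0 - s) * q.1 0 0 + b.1 0 1 * q.1 1 0) - -q.1 0 0 * (b.1 1 0 * q.1 0 0 + (b.1 1 1 - s) * q.1 1 0) := by
    have : (q⁻¹ * b * q).1 1 0 = (-q.1 1 0 * b.1 0 0 + q.1 0 0 * b.1 1 0) * q.1 0 0 + (-q.1 1 0 * b.1 0 1 + q.1 0 0 * b.1 1 1) * q.1 1 0 := by
      simp [Matrix.mul_apply, Fin.sum_univ_two, Matrix.adjugate_fin_two, Matrix.vecMul, dotProduct]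
    rw [this]
    ring
  have e11 : (q⁻¹ * b * q).1 1 1 - s = -q.1 1 0 * ((b.1 0 0 - s) * q.1 0 1 + b.1 0 1 * q.1 1 1) - -q.1 0 0 * (b.1 1 0 * q.1 0 1 + (b.1 1 1 - s) * q.1 1 1) := by
    have : (q⁻¹ * b * q).1 1 1 = (-q.1 1 0 * b.1 0 0 + q.1 0 0 * b.1 1 0) * q.1 0 1 + (-q.1 1 0 * b.1 0 1 + q.1 0 0 * b.1 1 1) * q.1 1 1 := by
      simp [Matrix.mul_apply, Fin.sum_univ_two, Matrix.adjugate_fin_two, Matrix.vecMul, dotProduct]
    rw [this]
    linear_combination s * hdet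
  have hn : ∀ i j, |-q.1 i j| ≤ M := fun i j => by rw [abs_neg]; exact hq i j
  rw [e00, e01, e10, e11]
  exact ⟨CNA_four M e _ _ _ _ _ _ _ _ (hq 1 1) (hq 0 0) (hq 1 0) (hq 0 1) h0 h1 h2 h3,
    CNA_four M e _ _ _ _ _ _ _ _ (hq 1 1) (hq 0 1) (hq 1 1) (hq 0 1) h0 h1 h2 h3,
    CNA_four M e _ _ _ _ _ _ _ _ (hn 1 0) (hq 0 0) (hq 1 0) (hn 0 0) h0 h1 h2 h3,
    CNA_four M e _ _ _ _ _ _ _ _ (hn 1 0) (hq 0 1) (hq 1 1) (hn 0 0) h0 h1 h2 h3⟩

theorem CNA_aM_add (s t : ℝ) : aM (s + t) = aM s * aM t := by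
  apply Subtype.ext
  rw [Matrix.SpecialLinearGroup.coe_mul]
  have h1 : (s + t) / 2 = s / 2 + t / 2 := by ring
  have h2 : -((s + t) / 2) = -(s / 2) + -(t / 2) := by ring
  simp only [aM, Matrix.mul_fin_two]
  ext i j
  fin_cases i <;> fin_cases j
  · simp [h1, Real.exp_add]
  · simp
  · simp
  · simp only [h2, Real.exp_add]
    simp

theorem CNA_q (y θ x : ℝ) (hy : 0 ≤ y) (hx : 0 ≤ x) (i j : Fin 2) : |(aM y * kM θ * aM x).1 i j| ≤ Real.exp (y / 2) * Real.exp (x / 2) := by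
  have hc := Real.abs_cos_le_one θ
  have hs := Real.abs_sin_le_one θ
  have h1 : Real.exp (-(y / 2)) ≤ Real.exp (y / 2) := Real.exp_le_exp.mpr (by linarith)
  have h2 : Real.exp (-(x / 2)) ≤ Real.exp (x / 2) := Real.exp_le_exp.mpr (by linarith)
  have p1 := Real.exp_pos (y / 2)
  have p2 := Real.exp_pos (x / 2)
  have p3 := Real.exp_pos (-(y / 2))
  have p4 := Real.exp_pos (-(x / 2))
  have key : ∀ (A c B : ℝ), 0 < A → 0 < B → A ≤ Real.exp (y / 2) → B ≤ Real.exp (x / 2) → |c| ≤ 1 → |A * c * B| ≤ Real.exp (y / 2) * Real.exp (x / 2) := by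
    intro A c B hA hB h3 h4 h5
    rw [abs_mul, abs_mul, abs_of_pos hA, abs_of_pos hB]
    calc A * |c| * B ≤ A * 1 * B := by gcongr
      _ = A * B := by ring
      _ ≤ Real.exp (y / 2) * Real.exp (x / 2) := mul_le_mul h3 h4 hB.le p1.le
  have e : ((aM y * kM θ * aM x).1 : Matrix (Fin 2) (Fin 2) ℝ) = !![Real.exp (y / 2) * Real.cos θ * Real.exp (x / 2), Real.exp (y / 2) * Real.sin θ * Real.exp (-(x / 2));
      Real.exp (-(y / 2)) * -Real.sin θ * Real.exp (x / 2), Real.exp (-(y / 2)) * Real.cos θ * Real.exp (-(x / 2))] := by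
    rw [Matrix.SpecialLinearGroup.coe_mul, Matrix.SpecialLinearGroup.coe_mul]
    simp only [aM, kM, Matrix.mul_fin_two]
    ext i j
    fin_cases i <;> fin_cases j <;> simp
  rw [e]
  fin_cases i <;> fin_cases j
  · exact key _ _ _ p1 p2 le_rfl le_rfl hc
  · exact key _ _ _ p1 p4 le_rfl h2 hs
  · exact key _ _ _ p3 p2 h1 le_rfl (by rw [abs_neg]; exact hs)
  · exact key _ _ _ p3 p4 h1 h2 hc

/-- elements of the box are near `1` or `-1` -/
theorem CNA_box (b : SL(2, ℝ)) (r : ℝ) (hr : 0 ≤ r) (hr1 : r ≤ 1) (h3 : ∀ i j, |b.1 i j| ≤ 3) (h10 : |b.1 1 0| ≤ r) (h01 : |b.1 0 1| ≤ r)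
    (hd : |b.1 0 0 - b.1 1 1| ≤ r) : ∃ s : ℝ, s ^ 2 = 1 ∧ |b.1 0 0 - s| ≤ 5 * r ∧ |b.1 0 1| ≤ 5 * r ∧ |b.1 1 0| ≤ 5 * r ∧ |b.1 1 1 - s| ≤ 5 * r := by
  have hdet : b.1 0 0 * b.1 1 1 - b.1 0 1 * b.1 1 0 = 1 := by
    have := b.2
    rwa [Matrix.det_fin_two] at this
  have ha := abs_le.1 (h3 0 0)
  have hb := abs_le.1 hd
  have hc : |b.1 0 1 * b.1 1 0| ≤ r * r := by
    rw [abs_mul]
    exact mul_le_mul h01 h10 (abs_nonneg _) hr
  have hc' := abs_le.1 hc
  have hp : |b.1 0 0 * (b.1 0 0 - b.1 1 1)| ≤ 3 * r := by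
    rw [abs_mul]
    exact mul_le_mul (h3 0 0) hd (abs_nonneg _) (by norm_num)
  have hp' := abs_le.1 hp
  have hrr : r * r ≤ r := by nlinarith
  have hsq1 : b.1 0 0 ^ 2 - 1 ≤ 4 * r := by nlinarith
  have hsq2 : -(4 * r) ≤ b.1 0 0 ^ 2 - 1 := by nlinarith
  rcases le_total 0 (b.1 0 0) with hpos | hneg
  · refine ⟨1, by norm_num, ?_, h01.trans (by linarith), h10.trans (by linarith), ?_⟩
    · rw [abs_le]
      constructor <;> nlinarith
    · have : |b.1 0 0 - 1| ≤ 4 * r := by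
        rw [abs_le]
        constructor <;> nlinarith
      have h5 := abs_le.1 this
      rw [abs_le]
      constructor <;> linarith
  · refine ⟨-1, by norm_num, ?_, h01.trans (by linarith), h10.trans (by linarith), ?_⟩
    · rw [abs_le]
      constructor <;> nlinarith
    · have : |b.1 0 0 - -1| ≤ 4 * r := by
        rw [abs_le]
        constructor <;> nlinarith
      have h5 := abs_le.1 this
      rw [abs_le]
      constructor <;> linarith

theorem CNA_move (P b q : SL(2, ℝ)) : dist ((P * b * q) • I : ℍ) ((P * q) • I) = dist ((q⁻¹ * b * q) • I : ℍ) I := by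
  have h1 : P * b * q = (P * q) * (q⁻¹ * b * q) := by group
  rw [h1, mul_smul (P * q) (q⁻¹ * b * q) I, dist_smul]

theorem CNA_proof : CNA_stmt := by
  intro C η ε hC hη hη' hε hε'
  have hC0 : 0 < C := by linarith
  refine ⟨(1 / (40 * C)) ^ 2, max 2 ((200 * C) ^ (2 / η)), by positivity, ?_, (by norm_num : (1 : ℝ) ≤ 2).trans (le_max_left _ _), ?_, ?_⟩
  · have h1 : 1 / (40 * C) ≤ 1 := by
      rw [div_le_one (by positivity)]
      linarith
    have h2 : 0 ≤ 1 / (40 * C) := by positivity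
    exact pow_le_one₀ h2 h1
  · intro ρ1 s h hρ hρ1 hs hexp hnr
    have h1 : dist ((h * aM s) • I : ℍ) (aM s • I) = dist (((aM s)⁻¹ * h * aM s) • I : ℍ) I := by
      have := CNA_move 1 h (aM s)
      rwa [one_mul, one_mul] at this
    rw [h1]
    have hq : ∀ i j, |(aM s).1 i j| ≤ Real.exp (s / 2) := by
      intro i j
      have h0 := Real.exp_pos (s / 2)
      have h2 : Real.exp (-(s / 2)) ≤ Real.exp (s / 2) := Real.exp_le_exp.mpr (by linarith)
      fin_cases i <;> fin_cases j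
      · simp [aM]
      · simp [aM]; positivity
      · simp [aM]; positivity
      · simpa [aM] using (by linarith : s / 2 ≥ -(s / 2))
    have n00 : |h.1 0 0 - 1| ≤ C * ρ1 := by simpa using (hnr 0 0).le
    have n01 : |h.1 0 1| ≤ C * ρ1 := by simpa using (hnr 0 1).le
    have n10 : |h.1 1 0| ≤ C * ρ1 := by simpa using (hnr 1 0).le
    have n11 : |h.1 1 1 - 1| ≤ C * ρ1 := by simpa using (hnr 1 1).le
    obtain ⟨c0, c1, c2, c3⟩ := CNA_conj h (aM s) (C * ρ1) (Real.exp (s / 2)) 1 hq n00 n01 n10 n11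
    have hbd : 4 * (Real.exp (s / 2) * Real.exp (s / 2) * (C * ρ1)) ≤ 1 / 10 := by
      have e1 : Real.exp (s / 2) * Real.exp (s / 2) = Real.exp s := by
        rw [← Real.exp_add]; congr 1; ring
      rw [e1]
      have e2 : Real.exp s * ρ1 ≤ ρ1 ^ (1 / 2 : ℝ) := by
        calc Real.exp s * ρ1 ≤ ρ1 ^ (-(1 / 2) : ℝ) * ρ1 := mul_le_mul_of_nonneg_right hexp hρ.le
          _ = ρ1 ^ (1 / 2 : ℝ) := by
            nth_rewrite 2 [← Real.rpow_one ρ1]
            rw [← Real.rpow_add hρ]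
            norm_num
      have e3 : ρ1 ^ (1 / 2 : ℝ) ≤ 1 / (40 * C) := by
        calc ρ1 ^ (1 / 2 : ℝ) ≤ ((1 / (40 * C)) ^ 2) ^ (1 / 2 : ℝ) := Real.rpow_le_rpow hρ.le hρ1 (by norm_num)
          _ = 1 / (40 * C) := by
            rw [← Real.sqrt_eq_rpow, Real.sqrt_sq (by positivity)]
      calc 4 * (Real.exp s * (C * ρ1)) = 4 * C * (Real.exp s * ρ1) := by ring
        _ ≤ 4 * C * (1 / (40 * C)) := mul_le_mul_of_nonneg_left (e2.trans e3) (by positivity)
        _ = 1 / 10 := by field_simp; norm_num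
    exact CNA_dist _ 1 (by norm_num) (c0.trans hbd) (c1.trans hbd) (c2.trans hbd) (c3.trans hbd)
  · intro R N g b hR hb s v x i hs hv hsv hev hx hex
    have hR2 : 2 ≤ R := (le_max_left _ _).trans hR
    have hRC : (200 * C) ^ (2 / η) ≤ R := (le_max_right _ _).trans hR
    have hR0 : 0 < R := by linarith
    have hR1 : 1 ≤ R := by linarith
    have hlog : 0 < Real.log R := Real.log_pos (by linarith)
    have hτ : 0 < tau R := by unfold tau; positivity
    have hvτ : v < tau R := by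
      have h1 : Real.exp v ≤ Real.exp (Real.log R * (η / 4)) := by
        rwa [Real.rpow_def_of_pos hR0] at hev
      have h2 := Real.exp_le_exp.mp h1
      unfold tau
      nlinarith
    have hj0 : (⌊s / tau R⌋₊ : ℝ) ≤ s / tau R := Nat.floor_le (by positivity)
    have hj1 : s / tau R < (⌊s / tau R⌋₊ : ℝ) + 1 := Nat.lt_floor_add_one _
    have hj0' : (⌊(s + v) / tau R⌋₊ : ℝ) ≤ (s + v) / tau R := Nat.floor_le (by positivity)
    have hj1' : (s + v) / tau R < (⌊(s + v) / tau R⌋₊ : ℝ) + 1 := Nat.lt_floor_add_one _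
    unfold fr
    generalize hj : ⌊s / tau R⌋₊ = j at hj0 hj1 ⊢
    generalize hj' : ⌊(s + v) / tau R⌋₊ = j' at hj0' hj1' ⊢
    rw [le_div_iff₀ hτ] at hj0 hj0'
    rw [div_lt_iff₀ hτ] at hj1 hj1'
    have hle : j ≤ j' := by
      rw [← hj, ← hj']
      apply Nat.floor_le_floor
      apply div_le_div_of_nonneg_right _ hτ.le
      linarith
    have hle' : j' ≤ j + 1 := by
      by_contra hcon
      have h2 : (j : ℝ) + 2 ≤ j' := by exact_mod_cast (by omega : j + 2 ≤ j')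
      nlinarith
    rcases (by omega : j' = j ∨ j' = j + 1) with h | h
    · subst h
      have h1 : s + v - (j' : ℝ) * tau R = (s - j' * tau R) + v := by ring
      rw [h1, CNA_aM_add, ← mul_assoc, dist_self]
      exact zero_le_one
    · subst h
      have hjN : j < N := by
        have h2 : ((j + 1 : ℕ) : ℝ) * tau R ≤ N * tau R := hj0'.trans hsv
        have h3 := le_of_mul_le_mul_right h2 hτ
        have h4 : j + 1 ≤ N := by exact_mod_cast h3
        omega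
      obtain ⟨b3, b10, b01, bd⟩ := hb j hjN
      push_cast at hj0' hj1'
      -- the remaining time
      obtain ⟨y, hy⟩ : ∃ y : ℝ, y = s + v - ((j : ℝ) + 1) * tau R := ⟨_, rfl⟩
      have hy0 : 0 ≤ y := by rw [hy]; linarith
      have hyv : y ≤ v := by rw [hy]; linarith
      have hP : ∀ k : SL(2, ℝ), pth (tau R) g b j * aM (s - (j : ℝ) * tau R) * aM v * k * aM x = (pth (tau R) g b j * aM (tau R)) * (aM y * k * aM x) := by
        intro k
        have h1 : aM (s - (j : ℝ) * tau R) * aM v = aM (tau R) * aM y := by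
          rw [← CNA_aM_add, ← CNA_aM_add]
          congr 1
          rw [hy]; ring
        rw [mul_assoc (pth (tau R) g b j) (aM (s - (j : ℝ) * tau R)) (aM v), h1]
        simp only [mul_assoc]
      have hP' : ∀ k : SL(2, ℝ), pth (tau R) g b (j + 1) * aM (s + v - ((j + 1 : ℕ) : ℝ) * tau R) * k * aM x =
          (pth (tau R) g b j * aM (tau R)) * b j * (aM y * k * aM x) := by
        intro k
        have h1 : s + v - ((j + 1 : ℕ) : ℝ) * tau R = y := by rw [hy]; push_cast; ring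
        rw [h1]
        show (pth (tau R) g b j * aM (tau R) * b j) * aM y * k * aM x = _
        simp only [mul_assoc]
      rw [hP, hP', CNA_move]
      -- the box
      have hRη : 0 < R ^ (-η) := Real.rpow_pos_of_pos hR0 _
      have hr0 : 0 ≤ C * R ^ (-η) := by positivity
      have hRhalf : 200 * C ≤ R ^ (η / 2) := by
        have h1 : ((200 * C) ^ (2 / η)) ^ (η / 2) ≤ R ^ (η / 2) := Real.rpow_le_rpow (by positivity) hRC (by positivity)
        rw [← Real.rpow_mul (by positivity)] at h1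
        have h2 : 2 / η * (η / 2) = 1 := by field_simp
        rwa [h2, Real.rpow_one] at h1
      have hhalf : R ^ (η / 2) * R ^ (-η) = R ^ (-(η / 2)) := by
        rw [← Real.rpow_add hR0]; congr 1; ring
      have hinv : R ^ (-(η / 2)) * R ^ (η / 2) = 1 := by
        rw [← Real.rpow_add hR0]; simp
      have hneg0 : 0 < R ^ (-(η / 2)) := Real.rpow_pos_of_pos hR0 _
      have hCneg : C * R ^ (-(η / 2)) ≤ 1 / 200 := by nlinarith
      have hr1 : C * R ^ (-η) ≤ 1 := by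
        have h1 : R ^ (-η) ≤ R ^ (-(η / 2)) := Real.rpow_le_rpow_of_exponent_le hR1 (by linarith)
        nlinarith
      have c10 : |(b j).1 1 0| ≤ C * R ^ (-η) := by
        refine b10.trans ?_
        have h1 : R ^ (-(5 / 8) + ε) ≤ R ^ (-η) := Real.rpow_le_rpow_of_exponent_le hR1 (by linarith)
        nlinarith
      have c01 : |(b j).1 0 1| ≤ C * R ^ (-η) := by
        refine b01.trans (mul_le_mul_of_nonneg_left ?_ hC0.le)
        exact Real.rpow_le_rpow_of_exponent_le hR1 (by linarith)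
      obtain ⟨σ, hσ, d0, d1, d2, d3⟩ := CNA_box (b j) (C * R ^ (-η)) hr0 hr1 b3 c10 c01 bd
      obtain ⟨f0, f1, f2, f3⟩ := CNA_conj (b j) (aM y * kM (i * (Real.pi / 2)) * aM x) (5 * (C * R ^ (-η))) (Real.exp (y / 2) * Real.exp (x / 2)) σ
        (fun i' j' => CNA_q y _ x hy0 hx i' j') d0 d1 d2 d3
      have hbd : 4 * (Real.exp (y / 2) * Real.exp (x / 2) * (Real.exp (y / 2) * Real.exp (x / 2)) * (5 * (C * R ^ (-η)))) ≤ 1 / 10 := by
        have e1 : Real.exp (y / 2) * Real.exp (x / 2) * (Real.exp (y / 2) * Real.exp (x / 2)) = Real.exp y * Real.exp x := by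
          rw [← Real.exp_add, ← Real.exp_add, ← Real.exp_add]; congr 1; ring
        have e2 : Real.exp y * Real.exp x ≤ R ^ (η / 4) * R ^ (η / 4) :=
          mul_le_mul ((Real.exp_le_exp.mpr hyv).trans hev) hex (Real.exp_pos _).le (by positivity)
        have e3 : R ^ (η / 4) * R ^ (η / 4) = R ^ (η / 2) := by
          rw [← Real.rpow_add hR0]; congr 1; ring
        rw [e1]
        calc 4 * (Real.exp y * Real.exp x * (5 * (C * R ^ (-η)))) ≤ 4 * (R ^ (η / 2) * (5 * (C * R ^ (-η)))) := by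
              rw [← e3]
              gcongr
          _ = 20 * (C * (R ^ (η / 2) * R ^ (-η))) := by ring
          _ = 20 * (C * R ^ (-(η / 2))) := by rw [hhalf]
          _ ≤ 1 / 10 := by linarith
      exact CNA_dist _ σ hσ (f0.trans hbd) (f1.trans hbd) (f2.trans hbd) (f3.trans hbd)

end Pool.Agent.RPQ
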