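import Pool.Agent.helper98.RPQ.SpecR

set_option autoImplicit false

open scoped MatrixGroups ContDiff Topology UpperHalfPlane ComplexConjugate ENNReal
open UpperHalfPlane MeasureTheory Filter Set

namespace Pool.Agent.RPQ

open Pool.Agent.RS
open Pool.Agent.MS (BA BB st pf gk Dk amk)

theorem UTM_closed (C η ε R : ℝ) : IsClosed (Bx C η ε R) := by
  have hc : ∀ i j, Continuous (fun b : SL(2, ℝ) => b.1 i j) := fun i j =>
    (continuous_apply_apply i j).comp continuous_subtype_val
  unfold Bx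
  refine IsClosed.inter ?_ (IsClosed.inter ?_ (IsClosed.inter ?_ ?_))
  · have h : {b : SL(2, ℝ) | ∀ i j, |b.1 i j| ≤ 3} = ⋂ i, ⋂ j, {b : SL(2, ℝ) | |b.1 i j| ≤ 3} := by
      ext b
      simp
    have h2 : IsClosed {b : SL(2, ℝ) | ∀ i j, |b.1 i j| ≤ 3} := by
      rw [h]
      exact isClosed_iInter fun i => isClosed_iInter fun j => isClosed_le (continuous_abs.comp (hc i j)) continuous_const
    exact h2
  · exact isClosed_le (continuous_abs.comp (hc 1 0)) continuous_const
  · exact isClosed_le (continuous_abs.comp (hc 0 1)) continuous_const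
  · exact isClosed_le (continuous_abs.comp ((hc 0 0).sub (hc 1 1))) continuous_const

theorem UTM_proof (hUKB : UKB_stmt) (hGKD : GKD_stmt) (hCWB : CWB_stmt) : UTM_stmt := by
  intro α β hα hβ η ε hη hη' hε hε'
  obtain ⟨C0, R0, hC0, hR0, H⟩ := hUKB α β hα hβ η ε hη hη' hε hε'
  refine ⟨C0, R0, hC0, hR0, ?_⟩
  intro C R hC hR
  have hR1 : 1 ≤ R := hR0.trans hR
  have hRpos : 0 < R := by linarith
  have hmeas : MeasurableSet (Bx C η ε R) := (UTM_closed C η ε R).measurableSet
  have hTB : ∀ w l : ℝ, 0 < w → w ≤ 1 → 0 < l → l ≤ 1 → TB (1 / 4) (cw β α w l) := fun w l h1 h2 h3 h4 =>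
    (hCWB α β w l hα hβ h1 h2 h3 h4).2.2.2.2.2.2.1
  have hp : ∀ e : ℝ, e ≤ 0 → 0 < R ^ e ∧ R ^ e ≤ 1 := fun e he =>
    ⟨Real.rpow_pos_of_pos hRpos e, Real.rpow_le_one_of_one_le_of_nonpos hR1 he⟩
  have h1 := hTB (w1 R) (R ^ (-η)) (hp _ (by norm_num)).1 (hp _ (by norm_num)).2 (hp _ (by linarith)).1 (hp _ (by linarith)).2
  have h2 := hTB (w0 R) (R ^ (-η)) (hp _ (by norm_num)).1 (hp _ (by norm_num)).2 (hp _ (by linarith)).1 (hp _ (by linarith)).2
  have huk : Continuous (uk β α η R) := by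
    unfold uk
    exact continuous_const.mul (hGKD R _ _ h1 h2).1
  refine ⟨?_, ?_, ?_⟩
  · unfold ut
    exact huk.measurable.indicator hmeas
  · unfold mj
    exact measurable_const.indicator hmeas
  · intro b
    by_cases hb : b ∈ Bx C η ε R
    · unfold mj
      rw [indicator_of_mem hb, ← ofReal_norm]
      exact ENNReal.ofReal_le_ofReal (H C R hC hR b).2.1
    · unfold mj ut
      rw [indicator_of_notMem hb, indicator_of_notMem hb]
      simp

end Pool.Agent.RPQ
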