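import Pool.Agent.helper29.RPQ.SpecP

set_option autoImplicit false

open scoped MatrixGroups ContDiff Topology UpperHalfPlane ComplexConjugate
open UpperHalfPlane MeasureTheory Filter Set

namespace Pool.Agent.RPQ

open Pool.Agent.RS
open Pool.Agent.MS (BA BB st pf gk Dk amk)

theorem AM2_smooth (c : ℍ → ℂ) (hc : QU.CD ∞ c) : ContDiff ℝ ∞ (fun q : ℝ × ℝ => cc c q.1 q.2) := by
  have h1 : (fun q : ℝ × ℝ => cc c q.1 q.2) = fun q : ℝ × ℝ => QU.onC c ((q.1 : ℂ) + (Real.exp q.2 : ℝ) * Complex.I) := by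
    funext q
    unfold QU.onC cc
    have h2 : ((pt q.1 q.2 : ℍ) : ℂ) = (q.1 : ℂ) + (Real.exp q.2 : ℝ) * Complex.I := by
      apply Complex.ext
      · simp [pt]
      · have h3 : (pt q.1 q.2 : ℍ).im = Real.exp q.2 := rfl
        rw [UpperHalfPlane.coe_im, h3]
        simp [← Complex.ofReal_exp]
    rw [← h2, UpperHalfPlane.ofComplex_apply]
  rw [h1]
  have hc' : ContDiffOn ℝ ∞ (QU.onC c) {w : ℂ | 0 < w.im} := hc
  refine ContDiffOn.comp_contDiff (g := QU.onC c) (f := fun q : ℝ × ℝ => (q.1 : ℂ) + (Real.exp q.2 : ℝ) * Complex.I) hc' ?_ ?_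
  · refine ContDiff.add ?_ (ContDiff.mul ?_ contDiff_const)
    · exact Complex.ofRealCLM.contDiff.comp contDiff_fst
    · exact Complex.ofRealCLM.contDiff.comp (Real.contDiff_exp.comp contDiff_snd)
  · intro q
    simp only [Set.mem_ofPred_eq, Complex.add_im, Complex.ofReal_im, Complex.mul_im, Complex.ofReal_re, Complex.I_re, Complex.I_im]
    have := Real.exp_pos q.2
    linarith

theorem AM2_pt (z : ℍ) : pt z.re (Real.log z.im) = z := by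
  apply UpperHalfPlane.ext
  apply Complex.ext
  · simp [pt]
  · simp [pt, Real.exp_log z.im_pos]

theorem AM2_line (f : ℝ → ℝ × ℝ) (e : ℝ × ℝ) (he : ‖e‖ ≤ 1) (hf : deriv f = fun _ => e) (i : ℕ) (hi : 1 ≤ i) (x : ℝ) :
    ‖iteratedFDeriv ℝ i f x‖ ≤ 1 := by
  rw [norm_iteratedFDeriv_eq_norm_iteratedDeriv]
  obtain ⟨j, rfl⟩ : ∃ j, i = j + 1 := ⟨i - 1, by omega⟩
  rw [iteratedDeriv_succ', hf, iteratedDeriv_const]
  split_ifs
  · exact he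
  · rw [norm_zero]; exact zero_le_one

theorem AM2_comp (F : ℝ × ℝ → ℂ) (hF : ContDiff ℝ ∞ F) (k : ℕ) (A m : ℝ) (hA : 0 ≤ A) (hm : 1 ≤ m)
    (hder : ∀ n ≤ k, ∀ p : ℝ × ℝ, ‖iteratedFDeriv ℝ n F p‖ ≤ A * m ^ n) (g : ℝ → ℝ × ℝ) (hg : ContDiff ℝ ∞ g) (x D : ℝ)
    (hD : 1 ≤ D) (hgD : ∀ i, 1 ≤ i → i ≤ k → ‖iteratedFDeriv ℝ i g x‖ ≤ D) (n : ℕ) (hn : n ≤ k) :
    ‖iteratedFDeriv ℝ n (fun x => F (g x)) x‖ ≤ ((k.factorial : ℝ) * A * D ^ k) * m ^ n := by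
  have h := norm_iteratedFDeriv_comp_le (n := n) hF hg (by exact_mod_cast le_top) x (C := A * m ^ n) (D := D)
    (fun i hi => (hder i (hi.trans hn) _).trans (mul_le_mul_of_nonneg_left (pow_le_pow_right₀ hm hi) hA))
    (fun i h1 hi => (hgD i h1 (hi.trans hn)).trans (by
      calc D = D ^ 1 := (pow_one D).symm
        _ ≤ D ^ i := pow_le_pow_right₀ hD h1))
  have h0 : ‖iteratedFDeriv ℝ n (fun x => F (g x)) x‖ ≤ (n.factorial : ℝ) * (A * m ^ n) * D ^ n := h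
  refine h0.trans ?_
  have h1 : (n.factorial : ℝ) ≤ k.factorial := by exact_mod_cast Nat.factorial_le hn
  have h2 : D ^ n ≤ D ^ k := pow_le_pow_right₀ hD hn
  have h3 : 0 ≤ A * m ^ n := by positivity
  calc (n.factorial : ℝ) * (A * m ^ n) * D ^ n ≤ (k.factorial : ℝ) * (A * m ^ n) * D ^ k := by
        apply mul_le_mul _ h2 (by positivity) (by positivity)
        exact mul_le_mul_of_nonneg_right h1 h3
    _ = ((k.factorial : ℝ) * A * D ^ k) * m ^ n := by ring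

theorem AM2_prod (f g : ℝ → ℂ) (hf : ContDiff ℝ ∞ f) (hg : ContDiff ℝ ∞ g) (k : ℕ) (P Q m x : ℝ) (hP : 0 ≤ P) (hQ : 0 ≤ Q) (hm : 1 ≤ m)
    (h1 : ∀ n ≤ k, ‖iteratedFDeriv ℝ n f x‖ ≤ P * m ^ n) (h2 : ∀ n ≤ k, ‖iteratedFDeriv ℝ n g x‖ ≤ Q * m ^ n) (n : ℕ) (hn : n ≤ k) :
    ‖iteratedFDeriv ℝ n (fun x => f x * g x) x‖ ≤ (2 ^ k * (P * Q)) * m ^ n := by
  refine (norm_iteratedFDeriv_mul_le hf hg x (n := n) (by exact_mod_cast le_top)).trans ?_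
  have h3 : ∑ i ∈ Finset.range (n + 1), ((n.choose i : ℕ) : ℝ) * ‖iteratedFDeriv ℝ i f x‖ * ‖iteratedFDeriv ℝ (n - i) g x‖ ≤
      ∑ i ∈ Finset.range (n + 1), ((n.choose i : ℕ) : ℝ) * ((P * Q) * m ^ n) := by
    apply Finset.sum_le_sum
    intro i hi
    rw [Finset.mem_range] at hi
    have a1 := h1 i (by omega)
    have a2 := h2 (n - i) (by omega)
    have a3 : ‖iteratedFDeriv ℝ i f x‖ * ‖iteratedFDeriv ℝ (n - i) g x‖ ≤ (P * m ^ i) * (Q * m ^ (n - i)) :=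
      mul_le_mul a1 a2 (norm_nonneg _) (by positivity)
    have a4 : (P * m ^ i) * (Q * m ^ (n - i)) = (P * Q) * m ^ n := by
      have : m ^ n = m ^ i * m ^ (n - i) := by rw [← pow_add]; congr 1; omega
      rw [this]; ring
    rw [mul_assoc, ← a4]
    exact mul_le_mul_of_nonneg_left a3 (Nat.cast_nonneg _)
  refine h3.trans ?_
  rw [← Finset.sum_mul]
  have h4 : ∑ i ∈ Finset.range (n + 1), ((n.choose i : ℕ) : ℝ) = 2 ^ n := by
    exact_mod_cast Nat.sum_range_choose n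
  rw [h4]
  have h5 : (2 : ℝ) ^ n ≤ 2 ^ k := pow_le_pow_right₀ (by norm_num) hn
  calc (2 : ℝ) ^ n * ((P * Q) * m ^ n) ≤ 2 ^ k * ((P * Q) * m ^ n) := mul_le_mul_of_nonneg_right h5 (by positivity)
    _ = (2 ^ k * (P * Q)) * m ^ n := by ring

theorem AM2_key (k : ℕ) (A1 A2 m M x : ℝ) (hA1 : 0 ≤ A1) (hA2 : 0 ≤ A2) (hm : 1 ≤ m) (hM : 1 ≤ M)
    (F1 F2 : ℝ × ℝ → ℂ) (hF1 : ContDiff ℝ ∞ F1) (hF2 : ContDiff ℝ ∞ F2)
    (hd1 : ∀ n ≤ k, ∀ p : ℝ × ℝ, ‖iteratedFDeriv ℝ n F1 p‖ ≤ A1 * m ^ n) (hd2 : ∀ n ≤ k, ∀ p : ℝ × ℝ, ‖iteratedFDeriv ℝ n F2 p‖ ≤ A2 * m ^ n)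
    (g1 g2 : ℝ → ℝ × ℝ) (hg1 : ContDiff ℝ ∞ g1) (hg2 : ContDiff ℝ ∞ g2)
    (hb1 : ∀ i, 1 ≤ i → i ≤ k → ‖iteratedFDeriv ℝ i g1 x‖ ≤ 1) (hb2 : ∀ i, 1 ≤ i → i ≤ k → ‖iteratedFDeriv ℝ i g2 x‖ ≤ M)
    (h : ℝ → ℝ) (hh : ContDiff ℝ ∞ h) (hb3 : ∀ i ≤ k, ‖iteratedFDeriv ℝ i h x‖ ≤ M) (n : ℕ) (hn : n ≤ k) :
    ‖iteratedFDeriv ℝ n (fun x => F1 (g1 x) * (conj (F2 (g2 x)) * ((h x : ℝ) : ℂ))) x‖ ≤
      ((2 ^ k * ((k.factorial : ℝ) * (2 ^ k * ((k.factorial : ℝ) * M ^ k * M)))) * (A1 * A2)) * m ^ n := by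
  have e1 := AM2_comp F1 hF1 k A1 m hA1 hm hd1 g1 hg1 x 1 le_rfl hb1
  have e2 := AM2_comp F2 hF2 k A2 m hA2 hm hd2 g2 hg2 x M hM hb2
  have hc2 : ContDiff ℝ ∞ (fun x => F2 (g2 x)) := hF2.comp hg2
  have hc2' : ContDiff ℝ ∞ (fun x => conj (F2 (g2 x))) := Complex.conjLIE.contDiff.comp hc2
  have e2' : ∀ n ≤ k, ‖iteratedFDeriv ℝ n (fun x => conj (F2 (g2 x))) x‖ ≤ ((k.factorial : ℝ) * A2 * M ^ k) * m ^ n := by
    intro n hn
    have := Complex.conjLIE.norm_iteratedFDeriv_comp_left (fun x => F2 (g2 x)) x n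
    have h2 : (fun x => conj (F2 (g2 x))) = Complex.conjLIE ∘ (fun x => F2 (g2 x)) := rfl
    rw [h2, this]
    exact e2 n hn
  have hc3 : ContDiff ℝ ∞ (fun x => ((h x : ℝ) : ℂ)) := Complex.ofRealCLM.contDiff.comp hh
  have e3 : ∀ n ≤ k, ‖iteratedFDeriv ℝ n (fun x => ((h x : ℝ) : ℂ)) x‖ ≤ M * m ^ n := by
    intro n hn
    have h1 := Complex.ofRealLI.norm_iteratedFDeriv_comp_left (f := h) (x := x) (n := ∞) (i := n) hh.contDiffAt (by exact_mod_cast le_top)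
    have h2 : (fun x => ((h x : ℝ) : ℂ)) = Complex.ofRealLI ∘ h := rfl
    rw [h2, h1]
    refine (hb3 n hn).trans ?_
    have : (1 : ℝ) ≤ m ^ n := one_le_pow₀ hm
    nlinarith
  have hM0 : 0 ≤ M := by linarith
  have e4 := AM2_prod (fun x => conj (F2 (g2 x))) (fun x => ((h x : ℝ) : ℂ)) hc2' hc3 k _ _ m x (by positivity) hM0 hm e2' e3
  have e5 := AM2_prod (fun x => F1 (g1 x)) (fun x => conj (F2 (g2 x)) * ((h x : ℝ) : ℂ)) (hF1.comp hg1) (hc2'.mul hc3) k _ _ m x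
    (by positivity) (by positivity) hm e1 e4 n hn
  refine e5.trans (le_of_eq ?_)
  rw [one_pow]
  ring

theorem AM2_proof (hAM1 : AM1_stmt) : AM2_stmt := by
  intro k
  obtain ⟨M, hM, H⟩ := hAM1 k
  refine ⟨2 ^ k * ((k.factorial : ℝ) * (2 ^ k * ((k.factorial : ℝ) * M ^ k * M))), ?_, ?_⟩
  · have h1 : (1 : ℝ) ≤ 2 ^ k := one_le_pow₀ (by norm_num)
    have h2 : (1 : ℝ) ≤ (k.factorial : ℝ) := by exact_mod_cast Nat.factorial_pos k
    have h3 : (1 : ℝ) ≤ M ^ k := one_le_pow₀ hM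
    exact one_le_mul_of_one_le_of_one_le h1 (one_le_mul_of_one_le_of_one_le h2 (one_le_mul_of_one_le_of_one_le h1
      (one_le_mul_of_one_le_of_one_le (one_le_mul_of_one_le_of_one_le h2 h3) hM)))
  · intro A1 A2 m v1 v2 l c1 c2 b hA1 hA2 hm hv1 hv2 hl hc1 hc2 hb
    obtain ⟨hD, hx, ht, HH⟩ := H b hb
    have hF1 := AM2_smooth c1 hc1.smooth
    have hF2 := AM2_smooth c2 hc2.smooth
    have hga : ∀ x τ : ℝ, ga c1 c2 b x τ = (fun q : ℝ × ℝ => cc c1 q.1 q.2) (x, τ) *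
        (conj ((fun q : ℝ × ℝ => cc c2 q.1 q.2) (qm b x τ)) * ((Dk b x τ ^ (-(1 / 2 : ℝ)) : ℝ) : ℂ)) := by
      intro x τ
      unfold ga amk
      have h1 : c2 (b⁻¹ • pt x τ) = cc c2 (qm b x τ).1 (qm b x τ).2 := by
        unfold cc qm
        rw [AM2_pt]
      simp only [h1]
    have hg1x : ∀ τ : ℝ, ContDiff ℝ ∞ (fun x : ℝ => ((x, τ) : ℝ × ℝ)) := fun τ => contDiff_id.prodMk contDiff_const
    have hg1t : ∀ x : ℝ, ContDiff ℝ ∞ (fun τ : ℝ => ((x, τ) : ℝ × ℝ)) := fun x => contDiff_const.prodMk contDiff_id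
    refine ⟨?_, ?_, ?_, ?_⟩
    · intro τ
      have h1 : (fun x => ga c1 c2 b x τ) = fun x => (fun q : ℝ × ℝ => cc c1 q.1 q.2) (x, τ) *
        (conj ((fun q : ℝ × ℝ => cc c2 q.1 q.2) (qm b x τ)) * ((Dk b x τ ^ (-(1 / 2 : ℝ)) : ℝ) : ℂ)) := by
        funext x; exact hga x τ
      rw [h1]
      exact (hF1.comp (hg1x τ)).mul ((Complex.conjLIE.contDiff.comp (hF2.comp (hx τ).1)).mul (Complex.ofRealCLM.contDiff.comp (hx τ).2.1))
    · intro x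
      have h1 : (fun τ => ga c1 c2 b x τ) = fun τ => (fun q : ℝ × ℝ => cc c1 q.1 q.2) (x, τ) *
        (conj ((fun q : ℝ × ℝ => cc c2 q.1 q.2) (qm b x τ)) * ((Dk b x τ ^ (-(1 / 2 : ℝ)) : ℝ) : ℂ)) := by
        funext τ; exact hga x τ
      rw [h1]
      exact (hF1.comp (hg1t x)).mul ((Complex.conjLIE.contDiff.comp (hF2.comp (ht x).1)).mul (Complex.ofRealCLM.contDiff.comp (ht x).2.1))
    · intro x τ hne
      have h1 : cc c1 x τ ≠ 0 := by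
        intro h0
        apply hne
        unfold ga
        rw [h0, zero_mul]
      have h2 := hc1.supp (pt x τ) h1
      simpa [pt] using h2
    · intro x τ hx' hτ' n hn
      obtain ⟨_, _, K1, _⟩ := HH x τ hx' hτ'
      constructor
      · have h1 : (fun x => ga c1 c2 b x τ) = fun x => (fun q : ℝ × ℝ => cc c1 q.1 q.2) (x, τ) *
          (conj ((fun q : ℝ × ℝ => cc c2 q.1 q.2) (qm b x τ)) * ((Dk b x τ ^ (-(1 / 2 : ℝ)) : ℝ) : ℂ)) := by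
          funext x; exact hga x τ
        rw [h1, ← norm_iteratedFDeriv_eq_norm_iteratedDeriv]
        refine AM2_key k A1 A2 m M x hA1 hA2 hm hM _ _ hF1 hF2 hc1.der hc2.der (fun x : ℝ => ((x, τ) : ℝ × ℝ)) (fun x => qm b x τ)
          (hg1x τ) (hx τ).1 ?_ ?_ (fun x => Dk b x τ ^ (-(1 / 2 : ℝ))) (hx τ).2.1 ?_ n hn
        · intro i hi _
          refine AM2_line _ (1, 0) (by simp [Prod.norm_def]) ?_ i hi x
          funext y
          exact ((hasDerivAt_id y).prodMk (hasDerivAt_const y τ)).deriv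
        · intro i _ hi
          rw [norm_iteratedFDeriv_eq_norm_iteratedDeriv]
          exact (K1 i hi).1
        · intro i hi
          rw [norm_iteratedFDeriv_eq_norm_iteratedDeriv]
          exact (K1 i hi).2.2.1
      · have h1 : (fun τ => ga c1 c2 b x τ) = fun τ => (fun q : ℝ × ℝ => cc c1 q.1 q.2) (x, τ) *
          (conj ((fun q : ℝ × ℝ => cc c2 q.1 q.2) (qm b x τ)) * ((Dk b x τ ^ (-(1 / 2 : ℝ)) : ℝ) : ℂ)) := by
          funext τ; exact hga x τ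
        rw [h1, ← norm_iteratedFDeriv_eq_norm_iteratedDeriv]
        refine AM2_key k A1 A2 m M τ hA1 hA2 hm hM _ _ hF1 hF2 hc1.der hc2.der (fun τ : ℝ => ((x, τ) : ℝ × ℝ)) (fun τ => qm b x τ)
          (hg1t x) (ht x).1 ?_ ?_ (fun τ => Dk b x τ ^ (-(1 / 2 : ℝ))) (ht x).2.1 ?_ n hn
        · intro i hi _
          refine AM2_line _ (0, 1) (by simp [Prod.norm_def]) ?_ i hi τ
          funext y
          exact ((hasDerivAt_const y x).prodMk (hasDerivAt_id y)).deriv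
        · intro i _ hi
          rw [norm_iteratedFDeriv_eq_norm_iteratedDeriv]
          exact (K1 i hi).2.1
        · intro i hi
          rw [norm_iteratedFDeriv_eq_norm_iteratedDeriv]
          exact (K1 i hi).2.2.2

end Pool.Agent.RPQ
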